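import Pool.Agent.V1129.Irr3

set_option autoImplicit false

/-!
MP_fae9ec_al, Q1: there is a faithful irreducible coset space `G/H`, an abelian minimal closed
normal subgroup `M` of `G` and a nontrivial closed normal subgroup `N` with `M ∩ N = 1`.
-/

namespace Pool.Agent.Results.MP_fae9ec_al.TrivialIntersection

open Pool.Agent.V1129.Irr

theorem result : ∃ (G : Type) (_ : Group G) (_ : TopologicalSpace G) (_ : IsTopologicalGroup G)
    (H M N : Subgroup G), Countable G ∧ TopologicalSpace.MetrizableSpace G ∧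
      FaithfulIrreducible G H ∧ MinimalClosedNormal G M ∧ (∀ a ∈ M, ∀ b ∈ M, a * b = b * a) ∧
      N.Normal ∧ IsClosed (N : Set G) ∧ N ≠ ⊥ ∧ M ⊓ N = ⊥ :=
  ⟨GG, inferInstance, inferInstance, inferInstance, HH, MM 0, MM 1, inferInstance, inferInstance,
    GG_faithful, MM_minimal 0, fun a ha b hb => MM_comm 0 a b ha hb, MM_normal 1, MM_closed 1,
    MM_ne_bot 1, MM_disjoint zero_ne_one⟩

end Pool.Agent.Results.MP_fae9ec_al.TrivialIntersection
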